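import Pool.Agent.H41.EQ.IA

/-!
IB: unitary invariance of the mean
-/

set_option autoImplicit false

namespace Pool.Agent.H41.EQ

open Pool.Agent.H92.EQ
open scoped BigOperators ComplexConjugate ContDiff ComplexOrder
open MeasureTheory

/-- the pull-back of the mean -/
theorem pull_av {N p : ℕ} (S : Form (Fin N) p) (G : Fin N → MvPolynomial (Fin N) ℂ)
    (y : Fin N → ℂ) (I J : Fin p → Fin N)
    (hint : ∀ I' J', Integrable (fun X : Fin N → Fin N → ℂ =>
      (gss X : ℂ) * pull (lin (Matrix.of X)) S (ev G y) I' J')) :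
    pull G (av S) y I J = ∫ X : Fin N → Fin N → ℂ,
      (gss X : ℂ) * pull G (pull (lin (Matrix.of X)) S) y I J := by
  have h0 : ∀ I' J' : Fin p → Fin N, Integrable (fun X : Fin N → Fin N → ℂ =>
      (gss X : ℂ) * pull (lin (Matrix.of X)) S (ev G y) I' J' *
        (∏ l, jac G y (I' l) (I l)) * ∏ l, conj (jac G y (J' l) (J l))) := fun I' J' =>
    ((hint I' J').mul_const _).mul_const _
  calc pull G (av S) y I J = ∑ I' : Fin p → Fin N, ∑ J' : Fin p → Fin N,
        (∫ X : Fin N → Fin N → ℂ, (gss X : ℂ) * pull (lin (Matrix.of X)) S (ev G y) I' J') *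
          (∏ l, jac G y (I' l) (I l)) * ∏ l, conj (jac G y (J' l) (J l)) := rfl
    _ = ∑ I' : Fin p → Fin N, ∑ J' : Fin p → Fin N,
        ∫ X : Fin N → Fin N → ℂ, (gss X : ℂ) * pull (lin (Matrix.of X)) S (ev G y) I' J' *
          (∏ l, jac G y (I' l) (I l)) * ∏ l, conj (jac G y (J' l) (J l)) := by
        simp only [integral_mul_const]
    _ = ∫ X : Fin N → Fin N → ℂ, ∑ I' : Fin p → Fin N, ∑ J' : Fin p → Fin N,
        (gss X : ℂ) * pull (lin (Matrix.of X)) S (ev G y) I' J' *
          (∏ l, jac G y (I' l) (I l)) * ∏ l, conj (jac G y (J' l) (J l)) := by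
        rw [integral_finset_sum _ fun I' _ => integrable_finset_sum _ fun J' _ => h0 I' J']
        refine Finset.sum_congr rfl fun I' _ => ?_
        rw [integral_finset_sum _ fun J' _ => h0 I' J']
    _ = _ := by
        refine integral_congr_ae (Filter.Eventually.of_forall fun X => ?_)
        show _ = (gss X : ℂ) * ∑ I' : Fin p → Fin N, ∑ J' : Fin p → Fin N,
          pull (lin (Matrix.of X)) S (ev G y) I' J' *
          (∏ l, jac G y (I' l) (I l)) * ∏ l, conj (jac G y (J' l) (J l))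
        rw [Finset.mul_sum]
        refine Finset.sum_congr rfl fun I' _ => ?_
        rw [Finset.mul_sum]
        refine Finset.sum_congr rfl fun J' _ => ?_
        ring

/-- the real linear map of the rows -/
noncomputable def rowL {N : ℕ} (U : Matrix (Fin N) (Fin N) ℂ) : (Fin N → ℂ) →ₗ[ℝ] (Fin N → ℂ) :=
  (Matrix.toLin' U.transpose).restrictScalars ℝ

theorem rowL_apply {N : ℕ} (U : Matrix (Fin N) (Fin N) ℂ) (x : Fin N → ℂ) :
    rowL U x = Matrix.vecMul x U := by
  simp [rowL, Matrix.mulVec_transpose]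

theorem rowL_det {N : ℕ} (U : Matrix (Fin N) (Fin N) ℂ) (hU : U * U.conjTranspose = 1) :
    LinearMap.det (rowL U) = 1 := by
  unfold rowL
  rw [LinearMap.det_restrictScalars, LinearMap.det_toLin', Matrix.det_transpose,
    Algebra.norm_complex_apply]
  have h1 := congrArg Matrix.det hU
  rw [Matrix.det_mul, Matrix.det_conjTranspose, Matrix.det_one] at h1
  have h2 : ((Complex.normSq U.det : ℝ) : ℂ) = 1 := by
    rw [← Complex.mul_conj]
    exact h1
  exact_mod_cast h2

theorem row_mp {N : ℕ} (U : Matrix (Fin N) (Fin N) ℂ) (hU : U * U.conjTranspose = 1) :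
    MeasurePreserving (fun x : Fin N → ℂ => Matrix.vecMul x U) volume volume := by
  have h0 : (fun x : Fin N → ℂ => Matrix.vecMul x U) = rowL U := by
    funext x
    rw [rowL_apply]
  rw [h0]
  refine ⟨(LinearMap.continuous_of_finiteDimensional (rowL U)).measurable, ?_⟩
  have h1 := Measure.map_linearMap_addHaar_eq_smul_addHaar (volume : Measure (Fin N → ℂ))
    (f := rowL U) (by rw [rowL_det U hU]; exact one_ne_zero)
  rw [h1, rowL_det U hU]
  simp

theorem nsq_row {N : ℕ} (U : Matrix (Fin N) (Fin N) ℂ) (hU : U * U.conjTranspose = 1)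
    (x : Fin N → ℂ) : ∑ j, ‖Matrix.vecMul x U j‖ ^ 2 = ∑ j, ‖x j‖ ^ 2 := by
  have key : ∀ v : Fin N → ℂ, ((∑ j, ‖v j‖ ^ 2 : ℝ) : ℂ) = v ⬝ᵥ star v := by
    intro v
    push_cast
    unfold dotProduct
    refine Finset.sum_congr rfl fun j _ => ?_
    rw [Pi.star_apply, ← Complex.ofReal_pow, ← Complex.normSq_eq_norm_sq, ← Complex.mul_conj]
    rfl
  have h1 : ((∑ j, ‖Matrix.vecMul x U j‖ ^ 2 : ℝ) : ℂ) = ((∑ j, ‖x j‖ ^ 2 : ℝ) : ℂ) := by
    rw [key, key, Matrix.star_vecMul, Matrix.dotProduct_mulVec, Matrix.vecMul_vecMul, hU,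
      Matrix.vecMul_one]
  exact_mod_cast h1

theorem gss_eq {N : ℕ} (X : Fin N → Fin N → ℂ) :
    gss X = ∏ i, ((∏ _j : Fin N, Real.pi⁻¹) * Real.exp (-∑ j, ‖X i j‖ ^ 2)) := by
  unfold gss
  refine Finset.prod_congr rfl fun i _ => ?_
  rw [Finset.prod_mul_distrib, ← Finset.sum_neg_distrib, Real.exp_sum]

theorem gss_mul {N : ℕ} (U : Matrix (Fin N) (Fin N) ℂ) (hU : U * U.conjTranspose = 1)
    (X : Fin N → Fin N → ℂ) : gss (fun i => Matrix.vecMul (X i) U) = gss X := by
  rw [gss_eq, gss_eq]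
  simp only [nsq_row U hU]

theorem row_meas {N : ℕ} (U : Matrix (Fin N) (Fin N) ℂ) :
    Measurable fun X : Fin N → Fin N → ℂ => fun i => Matrix.vecMul (X i) U := by
  refine measurable_pi_iff.2 fun i => measurable_pi_iff.2 fun j => ?_
  simp only [Matrix.vecMul, dotProduct]
  fun_prop

/-- multiplication on the right by a unitary matrix -/
noncomputable def eqU {N : ℕ} (U : Matrix (Fin N) (Fin N) ℂ) (hU : U * U.conjTranspose = 1) :
    (Fin N → Fin N → ℂ) ≃ᵐ (Fin N → Fin N → ℂ) where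
  toFun X := fun i => Matrix.vecMul (X i) U
  invFun X := fun i => Matrix.vecMul (X i) U.conjTranspose
  left_inv X := by
    funext i
    simp only [Matrix.vecMul_vecMul, hU, Matrix.vecMul_one]
  right_inv X := by
    funext i
    simp only [Matrix.vecMul_vecMul, mul_eq_one_comm.1 hU, Matrix.vecMul_one]
  measurable_toFun := row_meas U
  measurable_invFun := row_meas U.conjTranspose

theorem eqU_mp {N : ℕ} (U : Matrix (Fin N) (Fin N) ℂ) (hU : U * U.conjTranspose = 1) :
    MeasurePreserving (eqU U hU) volume volume :=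
  volume_preserving_pi (α' := fun _ : Fin N => (Fin N → ℂ)) (β' := fun _ : Fin N => (Fin N → ℂ))
    (f := fun _ x => Matrix.vecMul x U) fun _ => row_mp U hU

theorem pf_IB (h13 : T_D13) : T_IB := by
  intro N p S U hpN hS hU y hy
  obtain ⟨_, C, hC⟩ := pf_IA N p S hpN hS
  have hev : ev (lin U) y = U.mulVec y := (h13 N U U y).1
  have hw : ev (lin U) y ≠ 0 := by
    rw [hev]
    intro h0
    apply hy
    have h1 : U.conjTranspose.mulVec (U.mulVec y) = y := by
      rw [Matrix.mulVec_mulVec, mul_eq_one_comm.1 hU, Matrix.one_mulVec]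
    rw [← h1, h0, Matrix.mulVec_zero]
  funext I J
  rw [pull_av S (lin U) y I J fun I' J' => (hC _ hw I' J').1]
  have h2 : ∀ X : Fin N → Fin N → ℂ,
      (gss X : ℂ) * pull (lin U) (pull (lin (Matrix.of X)) S) y I J =
      (fun Y : Fin N → Fin N → ℂ => (gss Y : ℂ) * pull (lin (Matrix.of Y)) S y I J)
        (eqU U hU X) := by
    intro X
    have h3 := (h13 N (Matrix.of X) U y).2.2.2 p S
    show _ = ((gss (fun i => Matrix.vecMul (X i) U) : ℝ) : ℂ) *
      pull (lin (Matrix.of fun i => Matrix.vecMul (X i) U)) S y I J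
    rw [gss_mul U hU, ← h3]
    rfl
  simp only [h2]
  exact (eqU_mp U hU).integral_comp'
    (fun Y : Fin N → Fin N → ℂ => (gss Y : ℂ) * pull (lin (Matrix.of Y)) S y I J)

end Pool.Agent.H41.EQ
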