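import Pool.Agent.H92.EQ.TL

/-!
IA: integrability
-/

set_option autoImplicit false

namespace Pool.Agent.H41.EQ

open Pool.Agent.H92.EQ
open scoped BigOperators ComplexConjugate ContDiff ComplexOrder
open MeasureTheory

theorem gauss_int : Integrable (fun z : ℂ => Real.exp (-‖z‖ ^ 2 / 2)) := by
  have h := (integrable_fun_norm_addHaar (E := ℂ) (volume : Measure ℂ)
    (f := fun r : ℝ => Real.exp (-r ^ 2 / 2))).2 ?_
  · exact h
  · rw [Complex.finrank_real_complex]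
    have h2 := (integrable_mul_exp_neg_mul_sq (b := 1 / 2) (by norm_num)).integrableOn
      (s := Set.Ioi (0 : ℝ))
    refine h2.congr_fun ?_ measurableSet_Ioi
    intro x _
    simp only [smul_eq_mul]
    norm_num
    left
    ring

theorem pow_int {a : ℝ} (ha : a < 2) :
    IntegrableOn (fun z : ℂ => ‖z‖ ^ (-a)) (Metric.ball (0 : ℂ) 1) := by
  refine (integrableOn_fun_norm_addHaar (E := ℂ) (volume : Measure ℂ)
    (f := fun r : ℝ => r ^ (-a)) (r := 1)).2 ?_
  rw [Complex.finrank_real_complex]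
  have h1 : IntervalIntegrable (fun x : ℝ => x ^ (1 - a)) volume 0 1 :=
    intervalIntegral.intervalIntegrable_rpow' (by linarith)
  rw [intervalIntegrable_iff_integrableOn_Ioc_of_le zero_le_one] at h1
  refine (h1.mono_set Set.Ioo_subset_Ioc_self).congr_fun ?_ measurableSet_Ioo
  intro x hx
  simp only [smul_eq_mul]
  rw [show (2 - 1 : ℕ) = 1 from rfl, pow_one, sub_eq_add_neg, Real.rpow_add hx.1, Real.rpow_one]

/-- the integral in one variable, uniformly in the translation -/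
theorem one_var {a : ℝ} (ha0 : 0 ≤ a) (ha : a < 2) : ∃ K : ℝ, 0 ≤ K ∧ ∀ b : ℂ,
    ∫⁻ z : ℂ, ENNReal.ofReal (Real.exp (-‖z‖ ^ 2 / 2) * ‖z + b‖ ^ (-a)) ≤ ENNReal.ofReal K := by
  have hG := gauss_int
  have hP := (integrable_indicator_iff measurableSet_ball).2 (pow_int ha)
  refine ⟨(∫ z : ℂ, Real.exp (-‖z‖ ^ 2 / 2)) +
    ∫ z : ℂ, (Metric.ball (0 : ℂ) 1).indicator (fun z : ℂ => ‖z‖ ^ (-a)) z, ?_, ?_⟩
  · refine add_nonneg (integral_nonneg fun z => (Real.exp_pos _).le) (integral_nonneg fun z => ?_)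
    exact Set.indicator_nonneg (fun z _ => Real.rpow_nonneg (norm_nonneg _) _) z
  · intro b
    have h1 : ∀ z : ℂ, Real.exp (-‖z‖ ^ 2 / 2) * ‖z + b‖ ^ (-a) ≤ Real.exp (-‖z‖ ^ 2 / 2) +
        (Metric.ball (0 : ℂ) 1).indicator (fun z : ℂ => ‖z‖ ^ (-a)) (z + b) := by
      intro z
      have hE := Real.exp_pos (-‖z‖ ^ 2 / 2)
      have hE1 : Real.exp (-‖z‖ ^ 2 / 2) ≤ 1 := by
        rw [Real.exp_le_one_iff]
        have := sq_nonneg ‖z‖
        linarith
      have hr : 0 ≤ ‖z + b‖ ^ (-a) := Real.rpow_nonneg (norm_nonneg _) _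
      by_cases hz : z + b ∈ Metric.ball (0 : ℂ) 1
      · rw [Set.indicator_of_mem hz]
        nlinarith
      · rw [Set.indicator_of_notMem hz, add_zero]
        rw [Metric.mem_ball, dist_zero_right, not_lt] at hz
        have h2 : ‖z + b‖ ^ (-a) ≤ 1 := Real.rpow_le_one_of_one_le_of_nonpos hz (by linarith)
        nlinarith
    calc ∫⁻ z : ℂ, ENNReal.ofReal (Real.exp (-‖z‖ ^ 2 / 2) * ‖z + b‖ ^ (-a))
        ≤ ∫⁻ z : ℂ, (ENNReal.ofReal (Real.exp (-‖z‖ ^ 2 / 2)) +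
          ENNReal.ofReal ((Metric.ball (0 : ℂ) 1).indicator (fun z : ℂ => ‖z‖ ^ (-a))
            (z + b))) := by
          refine lintegral_mono fun z => ?_
          rw [← ENNReal.ofReal_add (Real.exp_pos _).le
            (Set.indicator_nonneg (fun z _ => Real.rpow_nonneg (norm_nonneg _) _) _)]
          exact ENNReal.ofReal_le_ofReal (h1 z)
      _ = (∫⁻ z : ℂ, ENNReal.ofReal (Real.exp (-‖z‖ ^ 2 / 2))) +
          ∫⁻ z : ℂ, ENNReal.ofReal ((Metric.ball (0 : ℂ) 1).indicator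
            (fun z : ℂ => ‖z‖ ^ (-a)) (z + b)) := by
          rw [lintegral_add_left']
          exact hG.1.aemeasurable.ennreal_ofReal
      _ = (∫⁻ z : ℂ, ENNReal.ofReal (Real.exp (-‖z‖ ^ 2 / 2))) +
          ∫⁻ z : ℂ, ENNReal.ofReal ((Metric.ball (0 : ℂ) 1).indicator
            (fun z : ℂ => ‖z‖ ^ (-a)) z) := by
          congr 1
          exact lintegral_add_right_eq_self (fun z : ℂ => ENNReal.ofReal
            ((Metric.ball (0 : ℂ) 1).indicator (fun z : ℂ => ‖z‖ ^ (-a)) z)) b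
      _ = _ := by
          rw [← ofReal_integral_eq_lintegral_ofReal hG
              (Filter.Eventually.of_forall fun z => (Real.exp_pos _).le),
            ← ofReal_integral_eq_lintegral_ofReal hP
              (Filter.Eventually.of_forall fun z =>
                Set.indicator_nonneg (fun z _ => Real.rpow_nonneg (norm_nonneg _) _) z),
            ← ENNReal.ofReal_add (integral_nonneg fun z => (Real.exp_pos _).le)
              (integral_nonneg fun z =>
                Set.indicator_nonneg (fun z _ => Real.rpow_nonneg (norm_nonneg _) _) z)]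

/-- the weight of one row -/
noncomputable def gr {N : ℕ} (a : ℝ) (y x : Fin N → ℂ) : ℝ :=
  (∏ j, Real.exp (-‖x j‖ ^ 2 / 2)) * ‖∑ j, x j * y j‖ ^ (-a)

theorem gr_nonneg {N : ℕ} (a : ℝ) (y x : Fin N → ℂ) : 0 ≤ gr a y x :=
  mul_nonneg (Finset.prod_nonneg fun _ _ => (Real.exp_pos _).le)
    (Real.rpow_nonneg (norm_nonneg _) _)

theorem gr_meas {N : ℕ} (a : ℝ) (y : Fin N → ℂ) : Measurable (gr a y) := by
  unfold gr
  fun_prop

/-- the integral over one row -/
theorem row_int {N : ℕ} {a : ℝ} (ha0 : 0 ≤ a) (ha : a < 2) : ∃ K : ℝ, 0 ≤ K ∧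
    ∀ (y : Fin N → ℂ) (k : Fin N), y k ≠ 0 →
      ∫⁻ x, ENNReal.ofReal (gr a y x) ≤ ENNReal.ofReal (K * ‖y k‖ ^ (-a)) := by
  obtain ⟨K1, hK1, h1⟩ := one_var ha0 ha
  rcases N with _ | n
  · exact ⟨0, le_refl _, fun y k => k.elim0⟩
  have hI : Integrable (fun x : Fin n → ℂ => ∏ j, Real.exp (-‖x j‖ ^ 2 / 2)) :=
    Integrable.fintype_prod (ι := Fin n) (μ := fun _ => (volume : Measure ℂ))
      (f := fun _ z => Real.exp (-‖z‖ ^ 2 / 2)) fun _ => gauss_int
  set I : ℝ := ∫ x : Fin n → ℂ, ∏ j, Real.exp (-‖x j‖ ^ 2 / 2) with hIdef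
  have hI0 : 0 ≤ I := integral_nonneg fun x => Finset.prod_nonneg fun _ _ => (Real.exp_pos _).le
  refine ⟨K1 * I, by positivity, ?_⟩
  intro y k hk
  have hyk : 0 < ‖y k‖ := norm_pos_iff.2 hk
  have hmp := (volume_preserving_piFinSuccAbove (fun _ : Fin (n + 1) => ℂ) k).symm
  have hm : Measurable fun x => ENNReal.ofReal (gr a y x) := (gr_meas a y).ennreal_ofReal
  rw [← hmp.lintegral_comp hm]
  have hform : ∀ (z : ℂ) (r : Fin n → ℂ),
      gr a y ((MeasurableEquiv.piFinSuccAbove (fun _ : Fin (n + 1) => ℂ) k).symm (z, r)) =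
        (∏ j, Real.exp (-‖r j‖ ^ 2 / 2)) * (‖y k‖ ^ (-a) *
          (Real.exp (-‖z‖ ^ 2 / 2) *
            ‖z + (∑ j, r j * y (k.succAbove j)) / y k‖ ^ (-a))) := by
    intro z r
    have e1 : (MeasurableEquiv.piFinSuccAbove (fun _ : Fin (n + 1) => ℂ) k).symm (z, r) =
        k.insertNth z r := rfl
    rw [e1]
    unfold gr
    rw [Fin.prod_univ_succAbove _ k, Fin.sum_univ_succAbove _ k]
    simp only [Fin.insertNth_apply_same, Fin.insertNth_apply_succAbove]
    have e2 : z * y k + ∑ j, r j * y (k.succAbove j) =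
        y k * (z + (∑ j, r j * y (k.succAbove j)) / y k) := by
      field_simp
    rw [e2, norm_mul, Real.mul_rpow (norm_nonneg _) (norm_nonneg _)]
    ring
  have hcomp : Measurable fun w : ℂ × (Fin n → ℂ) => ENNReal.ofReal
      (gr a y ((MeasurableEquiv.piFinSuccAbove (fun _ : Fin (n + 1) => ℂ) k).symm w)) :=
    hm.comp hmp.measurable
  have hvol : (volume : Measure (ℂ × (Fin n → ℂ))) = volume.prod volume := rfl
  rw [hvol, lintegral_prod_symm _ hcomp.aemeasurable]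
  have hinner : ∀ r : Fin n → ℂ, ∫⁻ z : ℂ, ENNReal.ofReal
      (gr a y ((MeasurableEquiv.piFinSuccAbove (fun _ : Fin (n + 1) => ℂ) k).symm (z, r))) ≤
      ENNReal.ofReal (∏ j, Real.exp (-‖r j‖ ^ 2 / 2)) *
        (ENNReal.ofReal (‖y k‖ ^ (-a)) * ENNReal.ofReal K1) := by
    intro r
    have hP : 0 ≤ ∏ j, Real.exp (-‖r j‖ ^ 2 / 2) :=
      Finset.prod_nonneg fun _ _ => (Real.exp_pos _).le
    simp only [hform]
    have e3 : ∀ z : ℂ, ENNReal.ofReal ((∏ j, Real.exp (-‖r j‖ ^ 2 / 2)) * (‖y k‖ ^ (-a) *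
          (Real.exp (-‖z‖ ^ 2 / 2) *
            ‖z + (∑ j, r j * y (k.succAbove j)) / y k‖ ^ (-a)))) =
        ENNReal.ofReal (∏ j, Real.exp (-‖r j‖ ^ 2 / 2)) * (ENNReal.ofReal (‖y k‖ ^ (-a)) *
          ENNReal.ofReal (Real.exp (-‖z‖ ^ 2 / 2) *
            ‖z + (∑ j, r j * y (k.succAbove j)) / y k‖ ^ (-a))) := by
      intro z
      rw [ENNReal.ofReal_mul hP, ENNReal.ofReal_mul (Real.rpow_nonneg (norm_nonneg _) _)]
    simp only [e3]
    rw [lintegral_const_mul' _ _ ENNReal.ofReal_ne_top,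
      lintegral_const_mul' _ _ ENNReal.ofReal_ne_top]
    gcongr
    exact h1 _
  refine (lintegral_mono hinner).trans ?_
  rw [lintegral_mul_const']
  · have h4 : ∫⁻ r : Fin n → ℂ, ENNReal.ofReal (∏ j, Real.exp (-‖r j‖ ^ 2 / 2)) =
        ENNReal.ofReal I := by
      rw [hIdef, ofReal_integral_eq_lintegral_ofReal hI
        (Filter.Eventually.of_forall fun x => Finset.prod_nonneg fun _ _ => (Real.exp_pos _).le)]
    rw [h4, ← ENNReal.ofReal_mul (Real.rpow_nonneg (norm_nonneg _) _),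
      ← ENNReal.ofReal_mul hI0]
    refine ENNReal.ofReal_le_ofReal (le_of_eq ?_)
    ring
  · exact ENNReal.mul_ne_top ENNReal.ofReal_ne_top ENNReal.ofReal_ne_top

/-- the weight of one row is integrable -/
theorem row_integrable {N : ℕ} {a : ℝ} (ha0 : 0 ≤ a) (ha : a < 2) : ∃ K : ℝ, 0 ≤ K ∧
    ∀ (y : Fin N → ℂ) (k : Fin N), y k ≠ 0 → Integrable (gr a y) ∧
      ∫ x, gr a y x ≤ K * ‖y k‖ ^ (-a) := by
  obtain ⟨K, hK, h⟩ := row_int (N := N) ha0 ha
  refine ⟨K, hK, fun y k hk => ?_⟩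
  have h1 := h y k hk
  have hm : AEStronglyMeasurable (gr a y) volume := (gr_meas a y).aestronglyMeasurable
  have hI : Integrable (gr a y) := by
    refine ⟨hm, ?_⟩
    rw [hasFiniteIntegral_iff_ofReal (Filter.Eventually.of_forall (gr_nonneg a y))]
    exact h1.trans_lt ENNReal.ofReal_lt_top
  refine ⟨hI, ?_⟩
  rw [← ofReal_integral_eq_lintegral_ofReal hI
    (Filter.Eventually.of_forall (gr_nonneg a y))] at h1
  exact (ENNReal.ofReal_le_ofReal_iff (mul_nonneg hK (Real.rpow_nonneg (norm_nonneg _) _))).1 h1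

/-- the product of the weights of the rows -/
theorem rows_integrable {N : ℕ} {a : ℝ} (ha0 : 0 ≤ a) (ha : a < 2) : ∃ K : ℝ, 0 ≤ K ∧
    ∀ (y : Fin N → ℂ) (k : Fin N), y k ≠ 0 →
      Integrable (fun X : Fin N → Fin N → ℂ => ∏ i, gr a y (X i)) ∧
      ∫ X : Fin N → Fin N → ℂ, ∏ i, gr a y (X i) ≤ (K * ‖y k‖ ^ (-a)) ^ N := by
  obtain ⟨K, hK, h⟩ := row_integrable (N := N) ha0 ha
  refine ⟨K, hK, fun y k hk => ?_⟩
  obtain ⟨h1, h2⟩ := h y k hk
  refine ⟨Integrable.fintype_prod (ι := Fin N) (μ := fun _ => (volume : Measure (Fin N → ℂ)))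
    (f := fun _ z => gr a y z) fun _ => h1, ?_⟩
  rw [integral_fintype_prod_volume_eq_pow (ι := Fin N) (E := Fin N → ℂ) (gr a y), Fintype.card_fin]
  exact pow_le_pow_left₀ (integral_nonneg (gr_nonneg a y)) h2 _

theorem gss_integral (N : ℕ) : ∫ X : Fin N → Fin N → ℂ, gss X = 1 := by
  have h1 : ∫ z : ℂ, Real.pi⁻¹ * Real.exp (-‖z‖ ^ 2) = 1 := by
    rw [integral_const_mul]
    have h2 := GaussianFourier.integral_rexp_neg_mul_sq_norm (V := ℂ) (b := 1) one_pos
    rw [Complex.finrank_real_complex] at h2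
    have h3 : ∫ z : ℂ, Real.exp (-‖z‖ ^ 2) = Real.pi := by
      have h4 : (fun z : ℂ => Real.exp (-‖z‖ ^ 2)) = fun z : ℂ => Real.exp (-1 * ‖z‖ ^ 2) := by
        funext z
        congr 1
        ring
      rw [h4, h2]
      norm_num
    rw [h3, inv_mul_cancel₀ Real.pi_ne_zero]
  have h5 : ∫ x : Fin N → ℂ, ∏ j, Real.pi⁻¹ * Real.exp (-‖x j‖ ^ 2) = 1 := by
    rw [integral_fintype_prod_volume_eq_pow (ι := Fin N) (E := ℂ)
      (fun z : ℂ => Real.pi⁻¹ * Real.exp (-‖z‖ ^ 2)), h1, one_pow]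
  unfold gss
  rw [integral_fintype_prod_volume_eq_pow (ι := Fin N) (E := Fin N → ℂ)
      (fun x : Fin N → ℂ => ∏ j, Real.pi⁻¹ * Real.exp (-‖x j‖ ^ 2)), h5, one_pow]

/-- the sum of the squares of the entries -/
noncomputable def sg {N : ℕ} (X : Fin N → Fin N → ℂ) : ℝ := ∑ i, ∑ j, ‖X i j‖ ^ 2

theorem sg_nonneg {N : ℕ} (X : Fin N → Fin N → ℂ) : 0 ≤ sg X :=
  Finset.sum_nonneg fun _ _ => Finset.sum_nonneg fun _ _ => sq_nonneg _

theorem gss_le {N : ℕ} (X : Fin N → Fin N → ℂ) : |gss X| ≤ Real.exp (-sg X) := by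
  have h0 : 0 ≤ gss X := Finset.prod_nonneg fun _ _ => Finset.prod_nonneg fun _ _ =>
    mul_nonneg (inv_nonneg.2 Real.pi_pos.le) (Real.exp_pos _).le
  rw [abs_of_nonneg h0]
  have h1 : Real.exp (-sg X) = ∏ i, ∏ j, Real.exp (-‖X i j‖ ^ 2) := by
    unfold sg
    rw [← Finset.sum_neg_distrib, Real.exp_sum]
    refine Finset.prod_congr rfl fun i _ => ?_
    rw [← Finset.sum_neg_distrib, Real.exp_sum]
  rw [h1]
  unfold gss
  refine Finset.prod_le_prod (fun _ _ => Finset.prod_nonneg fun _ _ =>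
    mul_nonneg (inv_nonneg.2 Real.pi_pos.le) (Real.exp_pos _).le) fun i _ => ?_
  refine Finset.prod_le_prod (fun _ _ =>
    mul_nonneg (inv_nonneg.2 Real.pi_pos.le) (Real.exp_pos _).le) fun j _ => ?_
  have h2 : Real.pi⁻¹ ≤ 1 := by
    rw [inv_le_one₀ Real.pi_pos]
    linarith [Real.pi_gt_three]
  have := Real.exp_pos (-‖X i j‖ ^ 2)
  nlinarith

theorem ent_le {N p : ℕ} (X : Fin N → Fin N → ℂ) (b c : Fin p → Fin N) :
    ∏ l, ‖X (b l) (c l)‖ ≤ Real.exp ((p : ℝ) ^ 2 + sg X / 4) := by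
  have h0 : ∀ i j, ‖X i j‖ ≤ Real.sqrt (sg X) := by
    intro i j
    apply Real.le_sqrt_of_sq_le
    unfold sg
    calc ‖X i j‖ ^ 2 ≤ ∑ j, ‖X i j‖ ^ 2 :=
          Finset.single_le_sum (f := fun j => ‖X i j‖ ^ 2) (fun _ _ => sq_nonneg _)
            (Finset.mem_univ j)
      _ ≤ _ := Finset.single_le_sum (f := fun i => ∑ j, ‖X i j‖ ^ 2)
          (fun _ _ => Finset.sum_nonneg fun _ _ => sq_nonneg _) (Finset.mem_univ i)
  have h1 : ∀ l : Fin p, ‖X (b l) (c l)‖ ≤ Real.exp (Real.sqrt (sg X)) := by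
    intro l
    have h2 := Real.add_one_le_exp (Real.sqrt (sg X))
    have h3 := h0 (b l) (c l)
    linarith
  calc ∏ l, ‖X (b l) (c l)‖ ≤ ∏ _l : Fin p, Real.exp (Real.sqrt (sg X)) :=
        Finset.prod_le_prod (fun _ _ => norm_nonneg _) fun l _ => h1 l
    _ = Real.exp (p * Real.sqrt (sg X)) := by
        rw [Finset.prod_const, Finset.card_univ, Fintype.card_fin, ← Real.exp_nat_mul]
    _ ≤ _ := by
        rw [Real.exp_le_exp]
        have h4 := Real.sq_sqrt (sg_nonneg X)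
        nlinarith [sq_nonneg ((p : ℝ) - Real.sqrt (sg X) / 2)]

theorem rows_eq {N : ℕ} (a : ℝ) (y : Fin N → ℂ) (X : Fin N → Fin N → ℂ) :
    ∏ i, gr a y (X i) = Real.exp (-(sg X / 2)) * ∏ i, ‖∑ j, X i j * y j‖ ^ (-a) := by
  unfold gr
  rw [Finset.prod_mul_distrib]
  congr 1
  have h1 : -(sg X / 2) = ∑ i, ∑ j, -‖X i j‖ ^ 2 / 2 := by
    unfold sg
    rw [← neg_div, ← Finset.sum_neg_distrib, Finset.sum_div]
    refine Finset.sum_congr rfl fun i _ => ?_
    rw [← Finset.sum_neg_distrib, Finset.sum_div]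
  rw [h1, Real.exp_sum]
  refine Finset.prod_congr rfl fun i _ => ?_
  rw [Real.exp_sum]

/-- the values of the form -/
theorem form_le {N p : ℕ} (S : Form (Fin N) p) (hS : ProjForm S) : ∃ C : ℝ, 0 ≤ C ∧
    ∀ w : Fin N → ℂ, w ≠ 0 → ∀ I J, ‖S w I J‖ ≤ C * (‖w‖ ^ (2 * p))⁻¹ := by
  have hcomp : IsCompact (Metric.sphere (0 : Fin N → ℂ) 1) := isCompact_sphere _ _
  have h1 : ∀ I J, ∃ C : ℝ, ∀ w ∈ Metric.sphere (0 : Fin N → ℂ) 1, ‖S w I J‖ ≤ C := by
    intro I J
    refine hcomp.exists_bound_of_continuousOn ?_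
    refine (hS.cp.smooth I J).continuousOn.mono ?_
    intro w hw
    rw [mem_sphere_zero_iff_norm] at hw
    intro h0
    rw [Set.mem_singleton_iff] at h0
    rw [h0, norm_zero] at hw
    exact zero_ne_one hw
  choose C hC using h1
  refine ⟨∑ I, ∑ J, |C I J|, Finset.sum_nonneg fun _ _ => Finset.sum_nonneg fun _ _ =>
    abs_nonneg _, ?_⟩
  intro w hw I J
  have hw0 : 0 < ‖w‖ := norm_pos_iff.2 hw
  have hwc : (‖w‖ : ℂ) ≠ 0 := by exact_mod_cast hw0.ne'
  have h2 : w = (‖w‖ : ℂ) • ((‖w‖ : ℂ)⁻¹ • w) := by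
    rw [smul_smul, mul_inv_cancel₀ hwc, one_smul]
  have h3 : ‖(‖w‖ : ℂ)⁻¹ • w‖ = 1 := by
    rw [norm_smul, norm_inv, Complex.norm_real, norm_norm, inv_mul_cancel₀ hw0.ne']
  have h4 : (‖w‖ : ℂ)⁻¹ • w ≠ 0 := by
    intro h0
    rw [h0, norm_zero] at h3
    exact zero_ne_one h3
  have h5 := hS.homog (‖w‖ : ℂ) ((‖w‖ : ℂ)⁻¹ • w) hwc h4 I J
  rw [← h2] at h5
  rw [h5, norm_mul, Complex.norm_real, Complex.norm_real, norm_norm, Real.norm_eq_abs,
    abs_of_nonneg (by positivity), mul_comm]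
  refine mul_le_mul_of_nonneg_right ?_ (by positivity)
  calc ‖S ((‖w‖ : ℂ)⁻¹ • w) I J‖ ≤ C I J := hC I J _ (by rw [mem_sphere_zero_iff_norm]; exact h3)
    _ ≤ |C I J| := le_abs_self _
    _ ≤ ∑ J, |C I J| := Finset.single_le_sum (f := fun J => |C I J|) (fun _ _ => abs_nonneg _)
        (Finset.mem_univ J)
    _ ≤ _ := Finset.single_le_sum (f := fun I => ∑ J, |C I J|)
        (fun _ _ => Finset.sum_nonneg fun _ _ => abs_nonneg _) (Finset.mem_univ I)

theorem ev_lin {N : ℕ} (X : Fin N → Fin N → ℂ) (y : Fin N → ℂ) (i : Fin N) :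
    ev (lin (Matrix.of X)) y i = ∑ j, X i j * y j := by
  simp [ev, lin]

theorem jac_lin {N : ℕ} (X : Fin N → Fin N → ℂ) (y : Fin N → ℂ) (i j : Fin N) :
    jac (lin (Matrix.of X)) y i j = X i j := by
  simp [jac, lin, MvPolynomial.pderiv_mul, MvPolynomial.pderiv_X, Pi.single_apply, Finset.sum_ite_eq]

/-- the pointwise bound -/
theorem pull_le {N p : ℕ} (hN : 0 < N) (S : Form (Fin N) p) (hS : ProjForm S) :
    ∃ C : ℝ, 0 ≤ C ∧ ∀ (y : Fin N → ℂ) (X : Fin N → Fin N → ℂ),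
      (∀ i, ∑ j, X i j * y j ≠ 0) → ∀ I J,
      ‖(gss X : ℂ) * pull (lin (Matrix.of X)) S y I J‖ ≤
        C * ∏ i, gr (2 * p / N : ℝ) y (X i) := by
  obtain ⟨C, hC, h1⟩ := form_le S hS
  refine ⟨∑ _I' : Fin p → Fin N, ∑ _J' : Fin p → Fin N, C * Real.exp (2 * (p : ℝ) ^ 2),
    by positivity, ?_⟩
  intro y X hX I J
  set w : Fin N → ℂ := ev (lin (Matrix.of X)) y with hw
  have hwi : ∀ i, w i = ∑ j, X i j * y j := ev_lin X y
  have hw0 : w ≠ 0 := by
    intro h0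
    refine hX ⟨0, hN⟩ ?_
    rw [← hwi, h0]
    rfl
  have hwn : 0 < ‖w‖ := norm_pos_iff.2 hw0
  have hNr : (0 : ℝ) < N := by exact_mod_cast hN
  have ha : 0 ≤ (2 * p / N : ℝ) := by positivity
  have hprod : (‖w‖ ^ (2 * p))⁻¹ ≤ ∏ i, ‖∑ j, X i j * y j‖ ^ (-(2 * p / N : ℝ)) := by
    have h2 : (‖w‖ ^ (2 * p))⁻¹ = ∏ _i : Fin N, ‖w‖ ^ (-(2 * p / N : ℝ)) := by
      rw [Finset.prod_const, Finset.card_univ, Fintype.card_fin,
        ← Real.rpow_natCast (‖w‖ ^ (-(2 * p / N : ℝ))) N,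
        ← Real.rpow_mul hwn.le, ← Real.rpow_natCast ‖w‖ (2 * p), ← Real.rpow_neg hwn.le]
      congr 1
      push_cast
      field_simp
    rw [h2]
    refine Finset.prod_le_prod (fun _ _ => Real.rpow_nonneg hwn.le _) fun i _ => ?_
    have h3 : 0 < ‖∑ j, X i j * y j‖ := norm_pos_iff.2 (hX i)
    refine Real.rpow_le_rpow_of_nonpos h3 ?_ (by linarith)
    rw [← hwi]
    exact norm_le_pi_norm w i
  rw [rows_eq]
  have hterm : ∀ I' J' : Fin p → Fin N,
      ‖S w I' J' * (∏ l, jac (lin (Matrix.of X)) y (I' l) (I l)) *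
        ∏ l, conj (jac (lin (Matrix.of X)) y (J' l) (J l))‖ ≤
      C * (‖w‖ ^ (2 * p))⁻¹ * Real.exp (2 * (p : ℝ) ^ 2 + sg X / 2) := by
    intro I' J'
    rw [norm_mul, norm_mul, norm_prod, norm_prod]
    simp only [jac_lin, RCLike.norm_conj]
    have h4 := ent_le X I' I
    have h5 := ent_le X J' J
    have h6 := h1 w hw0 I' J'
    have h7 : Real.exp (2 * (p : ℝ) ^ 2 + sg X / 2) =
        Real.exp ((p : ℝ) ^ 2 + sg X / 4) * Real.exp ((p : ℝ) ^ 2 + sg X / 4) := by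
      rw [← Real.exp_add]
      congr 1
      ring
    rw [h7, ← mul_assoc]
    have h8 : 0 ≤ ∏ l, ‖X (I' l) (I l)‖ := Finset.prod_nonneg fun _ _ => norm_nonneg _
    have h9 : 0 ≤ ∏ l, ‖X (J' l) (J l)‖ := Finset.prod_nonneg fun _ _ => norm_nonneg _
    exact mul_le_mul (mul_le_mul h6 h4 h8 (by positivity)) h5 h9 (by positivity)
  have hpull : ‖pull (lin (Matrix.of X)) S y I J‖ ≤
      ∑ _I' : Fin p → Fin N, ∑ _J' : Fin p → Fin N,
        C * (‖w‖ ^ (2 * p))⁻¹ * Real.exp (2 * (p : ℝ) ^ 2 + sg X / 2) := by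
    unfold pull
    refine (norm_sum_le _ _).trans (Finset.sum_le_sum fun I' _ => ?_)
    refine (norm_sum_le _ _).trans (Finset.sum_le_sum fun J' _ => ?_)
    exact hterm I' J'
  rw [norm_mul, Complex.norm_real, Real.norm_eq_abs]
  have hg := gss_le X
  calc |gss X| * ‖pull (lin (Matrix.of X)) S y I J‖ ≤
      Real.exp (-sg X) * ∑ _I' : Fin p → Fin N, ∑ _J' : Fin p → Fin N,
        C * (‖w‖ ^ (2 * p))⁻¹ * Real.exp (2 * (p : ℝ) ^ 2 + sg X / 2) :=
        mul_le_mul hg hpull (norm_nonneg _) (Real.exp_pos _).le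
    _ = (∑ _I' : Fin p → Fin N, ∑ _J' : Fin p → Fin N, C * Real.exp (2 * (p : ℝ) ^ 2)) *
        (Real.exp (-(sg X / 2)) * (‖w‖ ^ (2 * p))⁻¹) := by
        rw [Finset.mul_sum, Finset.sum_mul]
        refine Finset.sum_congr rfl fun I' _ => ?_
        rw [Finset.mul_sum, Finset.sum_mul]
        refine Finset.sum_congr rfl fun J' _ => ?_
        rw [Real.exp_add]
        have h10 : Real.exp (-sg X) * Real.exp (sg X / 2) = Real.exp (-(sg X / 2)) := by
          rw [← Real.exp_add]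
          congr 1
          ring
        rw [← h10]
        ring
    _ ≤ _ := by
        refine mul_le_mul_of_nonneg_left ?_ (by positivity)
        exact mul_le_mul_of_nonneg_left hprod (Real.exp_pos _).le

/-- almost all matrices -/
theorem ae_ne {N : ℕ} (y : Fin N → ℂ) (k : Fin N) (hk : y k ≠ 0) :
    ∀ᵐ X : Fin N → Fin N → ℂ, ∀ i, ∑ j, X i j * y j ≠ 0 := by
  rw [ae_all_iff]
  intro i
  let L : (Fin N → Fin N → ℂ) →ₗ[ℝ] ℂ :=
    { toFun := fun X => ∑ j, X i j * y j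
      map_add' := by
        intro X Y
        simp only [Pi.add_apply, add_mul, Finset.sum_add_distrib]
      map_smul' := by
        intro c X
        simp only [Pi.smul_apply, RingHom.id_apply, Finset.smul_sum, smul_mul_assoc] }
  have hL : LinearMap.ker L ≠ ⊤ := by
    intro h
    have h1 : (Pi.single i (Pi.single k 1) : Fin N → Fin N → ℂ) ∈ LinearMap.ker L := by
      rw [h]; trivial
    rw [LinearMap.mem_ker] at h1
    have h2 : L (Pi.single i (Pi.single k 1)) = y k := by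
      show ∑ j, (Pi.single i (Pi.single k 1) : Fin N → Fin N → ℂ) i j * y j = y k
      rw [Pi.single_eq_same]
      simp [Pi.single_apply]
    rw [h2] at h1
    exact hk h1
  haveI i1 : (volume : Measure (Fin N → ℂ)).IsAddHaarMeasure := inferInstance
  haveI i2 : (volume : Measure (Fin N → Fin N → ℂ)).IsAddHaarMeasure :=
    Measure.pi.isAddHaarMeasure _
  have h3 := Measure.addHaar_submodule (volume : Measure (Fin N → Fin N → ℂ)) (LinearMap.ker L) hL
  rw [ae_iff]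
  refine measure_mono_null ?_ h3
  intro X hX
  simp only [not_not, Set.mem_setOf_eq, ne_eq] at hX
  exact hX

theorem meas_pull {N p : ℕ} (S : Form (Fin N) p) (hS : ProjForm S) (y : Fin N → ℂ) (k : Fin N)
    (hk : y k ≠ 0) (I J : Fin p → Fin N) :
    AEStronglyMeasurable (fun X : Fin N → Fin N → ℂ =>
      (gss X : ℂ) * pull (lin (Matrix.of X)) S y I J) volume := by
  have hSm : ∀ I' J', AEStronglyMeasurable (fun X : Fin N → Fin N → ℂ =>
      S (ev (lin (Matrix.of X)) y) I' J') volume := by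
    intro I' J'
    set U : Set (Fin N → Fin N → ℂ) := {X | ev (lin (Matrix.of X)) y ≠ 0} with hU
    have hcont : Continuous fun X : Fin N → Fin N → ℂ => ev (lin (Matrix.of X)) y := by
      refine continuous_pi fun i => ?_
      simp only [ev_lin]
      fun_prop
    have hUo : IsOpen U := isOpen_ne_fun hcont continuous_const
    have h1 : ContinuousOn (fun X : Fin N → Fin N → ℂ =>
        S (ev (lin (Matrix.of X)) y) I' J') U := by
      refine ((hS.cp.smooth I' J').continuousOn).comp hcont.continuousOn ?_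
      intro X hX
      exact hX
    have h2 := h1.aestronglyMeasurable (μ := volume) hUo.measurableSet
    have h3 : (volume : Measure (Fin N → Fin N → ℂ)).restrict U = volume := by
      refine Measure.restrict_eq_self_of_ae_mem ?_
      filter_upwards [ae_ne y k hk] with X hX
      intro h0
      refine hX k ?_
      rw [← ev_lin, h0]
      rfl
    rwa [h3] at h2
  have hg : Continuous fun X : Fin N → Fin N → ℂ => (gss X : ℂ) := by
    unfold gss
    fun_prop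
  refine hg.aestronglyMeasurable.mul ?_
  unfold pull
  refine Finset.aestronglyMeasurable_fun_sum _ fun I' _ => ?_
  refine Finset.aestronglyMeasurable_fun_sum _ fun J' _ => ?_
  refine ((hSm I' J').mul ?_).mul ?_
  · simp only [jac_lin]
    have : Continuous fun X : Fin N → Fin N → ℂ => ∏ l, X (I' l) (I l) := by fun_prop
    exact this.aestronglyMeasurable
  · simp only [jac_lin]
    have : Continuous fun X : Fin N → Fin N → ℂ => ∏ l, conj (X (J' l) (J l)) := by fun_prop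
    exact this.aestronglyMeasurable

theorem pf_IA : T_IA := by
  intro N p S hpN hS
  refine ⟨gss_integral N, ?_⟩
  have hN : 0 < N := by omega
  have hNr : (0 : ℝ) < N := by exact_mod_cast hN
  have ha0 : 0 ≤ (2 * p / N : ℝ) := by positivity
  have ha2 : (2 * p / N : ℝ) < 2 := by
    rw [div_lt_iff₀ hNr]
    have : (p : ℝ) < N := by exact_mod_cast hpN
    linarith
  obtain ⟨C1, hC1, h1⟩ := pull_le hN S hS
  obtain ⟨K, hK, h2⟩ := rows_integrable (N := N) ha0 ha2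
  refine ⟨C1 * K ^ N * (N : ℝ) ^ p, ?_⟩
  intro y hy I J
  haveI : Nonempty (Fin N) := ⟨⟨0, hN⟩⟩
  obtain ⟨k, hk⟩ := Finite.exists_max fun i => ‖y i‖
  have hyk : y k ≠ 0 := by
    intro h0
    refine hy (funext fun i => ?_)
    have h3 := hk i
    rw [h0, norm_zero] at h3
    exact norm_le_zero_iff.1 h3
  have hykn : 0 < ‖y k‖ := norm_pos_iff.2 hyk
  obtain ⟨h3, h4⟩ := h2 y k hyk
  have hbound : ∀ᵐ X : Fin N → Fin N → ℂ, ‖(gss X : ℂ) * pull (lin (Matrix.of X)) S y I J‖ ≤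
      C1 * ∏ i, gr (2 * p / N : ℝ) y (X i) := by
    filter_upwards [ae_ne y k hyk] with X hX
    exact h1 y X hX I J
  have hmeas := meas_pull S hS y k hyk I J
  have hint : Integrable (fun X : Fin N → Fin N → ℂ =>
      (gss X : ℂ) * pull (lin (Matrix.of X)) S y I J) :=
    (h3.const_mul C1).mono' hmeas hbound
  refine ⟨hint, ?_⟩
  have h5 : ∫ X : Fin N → Fin N → ℂ, ‖(gss X : ℂ) * pull (lin (Matrix.of X)) S y I J‖ ≤
      ∫ X : Fin N → Fin N → ℂ, C1 * ∏ i, gr (2 * p / N : ℝ) y (X i) :=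
    integral_mono_ae hint.norm (h3.const_mul C1) hbound
  rw [integral_const_mul] at h5
  have h6 : (K * ‖y k‖ ^ (-(2 * p / N : ℝ))) ^ N = K ^ N * (‖y k‖ ^ (2 * p))⁻¹ := by
    rw [mul_pow]
    congr 1
    rw [← Real.rpow_natCast (‖y k‖ ^ (-(2 * p / N : ℝ))) N, ← Real.rpow_mul hykn.le,
      ← Real.rpow_natCast ‖y k‖ (2 * p), ← Real.rpow_neg hykn.le]
    congr 1
    push_cast
    field_simp
  have hnrm : nrm y ^ (2 * p) ≤ (N : ℝ) ^ p * ‖y k‖ ^ (2 * p) := by
    unfold nrm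
    rw [pow_mul, Real.sq_sqrt (show 0 ≤ nsq y from Finset.sum_nonneg fun _ _ => sq_nonneg _),
      pow_mul, ← mul_pow]
    refine pow_le_pow_left₀ (Finset.sum_nonneg fun _ _ => sq_nonneg _) ?_ _
    unfold nsq
    calc ∑ i, ‖y i‖ ^ 2 ≤ ∑ _i : Fin N, ‖y k‖ ^ 2 :=
          Finset.sum_le_sum fun i _ => pow_le_pow_left₀ (norm_nonneg _) (hk i) _
      _ = N * ‖y k‖ ^ 2 := by rw [Finset.sum_const, Finset.card_univ, Fintype.card_fin,
          nsmul_eq_mul]
  have hnp : 0 < nrm y := by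
    unfold nrm
    refine Real.sqrt_pos.2 ?_
    unfold nsq
    refine Finset.sum_pos' (fun _ _ => sq_nonneg _) ⟨k, Finset.mem_univ k, by positivity⟩
  calc ∫ X : Fin N → Fin N → ℂ, ‖(gss X : ℂ) * pull (lin (Matrix.of X)) S y I J‖
      ≤ C1 * ∫ X : Fin N → Fin N → ℂ, ∏ i, gr (2 * p / N : ℝ) y (X i) := h5
    _ ≤ C1 * (K ^ N * (‖y k‖ ^ (2 * p))⁻¹) := by
        rw [← h6]
        exact mul_le_mul_of_nonneg_left h4 hC1
    _ ≤ C1 * K ^ N * (N : ℝ) ^ p / nrm y ^ (2 * p) := by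
        rw [le_div_iff₀ (by positivity)]
        have h7 : (‖y k‖ ^ (2 * p))⁻¹ * nrm y ^ (2 * p) ≤ (N : ℝ) ^ p := by
          rw [inv_mul_le_iff₀ (by positivity)]
          linarith
        calc C1 * (K ^ N * (‖y k‖ ^ (2 * p))⁻¹) * nrm y ^ (2 * p) =
            C1 * K ^ N * ((‖y k‖ ^ (2 * p))⁻¹ * nrm y ^ (2 * p)) := by ring
          _ ≤ C1 * K ^ N * (N : ℝ) ^ p := mul_le_mul_of_nonneg_left h7 (by positivity)

end Pool.Agent.H41.EQ
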